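import Pool.Agent.R179.RC.OPT

/-!
# RC-DICH (helper179), MP_ce24da_an
-/

set_option autoImplicit false
open MeasureTheory Set Filter Topology
open scoped ENNReal NNReal

namespace Pool.Agent.R179.RC

open Pool.Agent.R284.RC

/-- bound for the mutual energy -/
theorem mutual_le {n : ℕ} {p c : ℝ} {σ τ : Measure (E n)} [IsProbabilityMeasure σ]
    [IsProbabilityMeasure τ] {A B : Set (E n)} (hA : σ Aᶜ = 0) (hB : τ Bᶜ = 0)
    (hint : Integrable (fun z : E n × E n => kr p z.1 z.2) (σ.prod τ))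
    (hint2 : ∀ x, Integrable (fun y => kr p x y) τ)
    (h : ∀ x ∈ A, ∀ y ∈ B, kr p x y ≤ c) : En p σ τ ≤ c := by
  have hAae : ∀ᵐ x ∂σ, x ∈ A := by
    rw [ae_iff]; exact hA
  have hBae : ∀ᵐ y ∂τ, y ∈ B := by
    rw [ae_iff]; exact hB
  have hU : ∀ x ∈ A, U p τ x ≤ c := by
    intro x hx
    unfold U
    calc ∫ y, kr p x y ∂τ ≤ ∫ _, c ∂τ := by
          apply integral_mono_ae (hint2 x) (integrable_const c)
          filter_upwards [hBae] with y hy
          exact h x hx y hy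
      _ = c := by simp
  unfold En
  have hUint : Integrable (fun x => U p τ x) σ := hint.integral_prod_left
  calc ∫ x, U p τ x ∂σ ≤ ∫ _, c ∂σ := by
        apply integral_mono_ae hUint (integrable_const c)
        filter_upwards [hAae] with x hx
        exact hU x hx
    _ = c := by simp

theorem Iq_nr_le {n : ℕ} {q : ℝ} {ν : Measure (E n)} [IsFiniteMeasure ν]
    (h : ∀ᵐ x ∂ν, Pot q ν x ≤ Iq q ν) {A : Set (E n)} (hA : ν A ≠ 0) :
    Iq q (nr ν A) ≤ (ν A)⁻¹ * Iq q ν := by
  have hAtop : ν A ≠ ⊤ := measure_ne_top ν A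
  have h1 : ∀ x, Pot q (nr ν A) x ≤ (ν A)⁻¹ * Pot q ν x := by
    intro x
    unfold Pot nr
    rw [lintegral_smul_measure, smul_eq_mul]
    gcongr
    exact Measure.restrict_le_self
  calc Iq q (nr ν A) = ∫⁻ x, Pot q (nr ν A) x ∂(nr ν A) := rfl
    _ ≤ ∫⁻ x, (ν A)⁻¹ * Pot q ν x ∂(nr ν A) := lintegral_mono h1
    _ = (ν A)⁻¹ * ∫⁻ x in A, (ν A)⁻¹ * Pot q ν x ∂ν := by
        unfold nr
        rw [lintegral_smul_measure, smul_eq_mul]
    _ ≤ (ν A)⁻¹ * ∫⁻ _ in A, (ν A)⁻¹ * Iq q ν ∂ν := by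
        gcongr 1
        apply lintegral_mono_ae
        filter_upwards [ae_restrict_of_ae h] with x hx
        gcongr
    _ = (ν A)⁻¹ * Iq q ν := by
        rw [lintegral_const, Measure.restrict_apply_univ]
        rw [mul_comm ((ν A)⁻¹) (Iq q ν), mul_assoc, ENNReal.inv_mul_cancel hA hAtop, mul_one,
          mul_comm]

/-- a measure of small energy on `A` -/
theorem pick (hcls : S_cls) {n : ℕ} {p q : ℝ} (hq : 0 < q) {M : ℝ} (hM : 0 < M)
    (hMB : MB n p q M) {ν : Measure (E n)} (hN : NData p q ν (v0 p)) {ε : ℝ} (hε : 0 < ε)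
    (hI : (Iq q ν).toReal ≤ (1 + ε) * M ^ (-q)) {A : Set (E n)} (hA : MeasurableSet A)
    (hmA : 0 < (ν A).toReal) {v : ℝ} (hv : p ≠ 0 → 0 < v)
    (hPhi : ((1 + ε) / (ν A).toReal) ^ (1 / q) < Phi p v) :
    ∃ σ ∈ Cls ν, σ Aᶜ = 0 ∧ En p σ σ < v := by
  obtain ⟨hpr, hbs, hItop, hae, hpot, hlow⟩ := hN
  have hcl := hcls n q ν inferInstance
  have hA0 : ν A ≠ 0 := by
    intro h; rw [h] at hmA; simp at hmA
  obtain ⟨hpr2, hbp, -⟩ := hcl.2.2.2.2 A hA hA0
  have hBP : BP q ν := by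
    refine ⟨(ENNReal.ofReal (2 ^ q) * Iq q ν).toNNReal, fun x => ?_⟩
    rw [ENNReal.coe_toNNReal (ENNReal.mul_ne_top ENNReal.ofReal_ne_top hItop.ne)]
    exact hpot x
  by_contra hcon
  push Not at hcon
  have hL : LowV p (nr ν A) v := by
    intro σ hσ
    have h1 := (hcl.2.2.2.1 A hA hA0 σ).1 hσ
    exact hcon σ h1.1 h1.2
  have h2 := hMB (nr ν A) hpr2 (hbp hBP) v hv hL
  have h3 : (Iq q (nr ν A)).toReal ≤ (1 + ε) * M ^ (-q) / (ν A).toReal := by
    have h5 : (ν A)⁻¹ * Iq q ν ≠ ⊤ :=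
      ENNReal.mul_ne_top (ENNReal.inv_ne_top.2 hA0) hItop.ne
    have h6 := ENNReal.toReal_mono h5 (Iq_nr_le hae hA0)
    rw [ENNReal.toReal_mul, ENNReal.toReal_inv, inv_mul_eq_div] at h6
    refine h6.trans ?_
    gcongr
  have h4 : M * (Iq q (nr ν A)).toReal ^ (1 / q) ≤ ((1 + ε) / (ν A).toReal) ^ (1 / q) := by
    calc M * (Iq q (nr ν A)).toReal ^ (1 / q)
        ≤ M * ((1 + ε) * M ^ (-q) / (ν A).toReal) ^ (1 / q) := by gcongr
      _ = M * (M ^ (-q) * ((1 + ε) / (ν A).toReal)) ^ (1 / q) := by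
          congr 2; ring
      _ = M * ((M ^ (-q)) ^ (1 / q) * ((1 + ε) / (ν A).toReal) ^ (1 / q)) := by
          rw [Real.mul_rpow (by positivity) (by positivity)]
      _ = ((1 + ε) / (ν A).toReal) ^ (1 / q) := by
          rw [← Real.rpow_mul hM.le, show -q * (1 / q) = -1 by field_simp, Real.rpow_neg_one,
            ← mul_assoc, mul_inv_cancel₀ hM.ne', one_mul]
  linarith

theorem dich_proof (hcls : S_cls) (hexp : S_exp) (hint : S_int) : S_dich := by
  intro n p q hp hpq M hM hMB δ₀ hδ₀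
  have hq : 0 < q := lt_of_le_of_lt hp hpq
  set δ : ℝ := min δ₀ (1 / 4) with hδ
  have hδpos : 0 < δ := lt_min hδ₀ (by norm_num)
  have hδ4 : δ ≤ 1 / 4 := min_le_right _ _
  have hδδ : δ ≤ δ₀ := min_le_left _ _
  -- common part
  have common : ∀ ν : Measure (E n), NData p q ν (v0 p) → ∀ w : ℝ, 0 < w →
      ∀ A B : Set (E n), MeasurableSet A → MeasurableSet B →
      (∀ x ∈ A, ∀ y ∈ B, w ≤ dist x y) → ENNReal.ofReal δ₀ ≤ ν A → ENNReal.ofReal δ₀ ≤ ν B →
      δ ≤ (ν A).toReal ∧ δ ≤ (ν B).toReal ∧ (ν A).toReal + (ν B).toReal ≤ 1 ∧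
      (∀ σ ∈ Cls ν, ∀ τ ∈ Cls ν, σ Aᶜ = 0 → τ Bᶜ = 0 → ∀ c : ℝ,
        (∀ x ∈ A, ∀ y ∈ B, kr p x y ≤ c) → ∀ t ∈ Icc (0 : ℝ) 1,
        v0 p ≤ (1 - t) ^ 2 * En p σ σ + 2 * t * (1 - t) * c + t ^ 2 * En p τ τ) := by
    intro ν hN w hw A B hA hB hdist hAδ hBδ
    obtain ⟨hpr, hbs, hItop, hae, hpot, hlow⟩ := hN
    have hAt : ν A ≠ ⊤ := measure_ne_top ν A
    have hBt : ν B ≠ ⊤ := measure_ne_top ν B
    have hdisj : Disjoint A B := by
      rw [Set.disjoint_left]
      intro x hxA hxB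
      have := hdist x hxA x hxB
      rw [dist_self] at this
      linarith
    refine ⟨?_, ?_, ?_, ?_⟩
    · have h1 := ENNReal.toReal_mono hAt hAδ
      rw [ENNReal.toReal_ofReal hδ₀.le] at h1
      linarith
    · have h1 := ENNReal.toReal_mono hBt hBδ
      rw [ENNReal.toReal_ofReal hδ₀.le] at h1
      linarith
    · rw [← ENNReal.toReal_add hAt hBt, ← measure_union hdisj hB]
      have h1 := ENNReal.toReal_mono ENNReal.one_ne_top (prob_le_one (μ := ν) (s := A ∪ B))
      simpa using h1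
    · intro σ hσ τ hτ hσA hτB c hc t ht
      have hBP : BP q ν := by
        refine ⟨(ENNReal.ofReal (2 ^ q) * Iq q ν).toNNReal, fun x => ?_⟩
        rw [ENNReal.coe_toNNReal (ENNReal.mul_ne_top ENNReal.ofReal_ne_top hItop.ne)]
        exact hpot x
      have hcl := hcls n q ν inferInstance
      have hσp : IsProbabilityMeasure σ := hσ.1
      have hτp : IsProbabilityMeasure τ := hτ.1
      have bσ := hcl.2.1 hBP σ hσ
      have bτ := hcl.2.1 hBP τ hτ
      have sσ : BS σ := hσ.2.2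
      have sτ : BS τ := hτ.2.2
      obtain ⟨i1, i2, i3⟩ := hint n p q hp hpq σ τ inferInstance inferInstance bτ sσ sτ
      obtain ⟨-, -, i4⟩ := hint n p q hp hpq σ σ inferInstance inferInstance bσ sσ sσ
      obtain ⟨-, -, i5⟩ := hint n p q hp hpq τ τ inferInstance inferInstance bτ sτ sτ
      have hm := mutual_le hσA hτB i1 i2 hc
      have h1 := (hexp n p σ τ hσp hτp i4 i5 i3).2 t ht
      have h2 := hlow _ (hcl.1 σ hσ τ hτ t ht)
      rw [h1.2.1] at h2
      have h3 : 2 * t * (1 - t) * En p σ τ ≤ 2 * t * (1 - t) * c := by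
        apply mul_le_mul_of_nonneg_left hm
        have := ht.1
        have := ht.2
        have : 0 ≤ 1 - t := by linarith
        positivity
      linarith
  rcases eq_or_lt_of_le hp with hp0 | hp0
  · -- p = 0
    subst hp0
    set b : ℝ := 1 / q * Real.log (4 / δ) with hb
    refine ⟨1, one_pos, Real.exp b, Real.exp_pos _, 1 / 2, by norm_num, ?_⟩
    intro ν hN hI A B hA hB hdist hAδ hBδ hη
    obtain ⟨hA1, hB1, -, hmix⟩ := common ν hN _ (Real.exp_pos b) A B hA hB hdist hAδ hBδ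
    have hphi : ∀ m : ℝ, δ ≤ m → ((1 + 1) / m) ^ (1 / q) < Phi 0 b := by
      intro m hm
      have hm0 : 0 < m := by linarith
      unfold Phi
      rw [if_pos rfl, hb, mul_comm, Real.exp_mul, Real.exp_log (by positivity)]
      apply Real.rpow_lt_rpow (by positivity) _ (by positivity)
      rw [div_lt_div_iff₀ hm0 hδpos]
      nlinarith
    obtain ⟨σ, hσ, hσA, hσe⟩ := pick hcls hq hM hMB hN one_pos hI hA (by linarith)
      (v := b) (fun h => absurd rfl h) (hphi _ hA1)
    obtain ⟨τ, hτ, hτB, hτe⟩ := pick hcls hq hM hMB hN one_pos hI hB (by linarith)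
      (v := b) (fun h => absurd rfl h) (hphi _ hB1)
    have hc : ∀ x ∈ A, ∀ y ∈ B, kr 0 x y ≤ -b := by
      intro x hx y hy
      unfold kr
      rw [if_pos rfl]
      have h1 := Real.log_le_log (Real.exp_pos b) (hdist x hx y hy)
      rw [Real.log_exp] at h1
      linarith
    have h := hmix σ hσ τ hτ hσA hτB (-b) hc (1 / 2) ⟨by norm_num, by norm_num⟩
    unfold v0 at h
    rw [if_pos rfl] at h
    norm_num at h
    linarith
  · -- p > 0
    have hpne : p ≠ 0 := hp0.ne'
    set s : ℝ := p / q with hs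
    have hs0 : 0 < s := by positivity
    have hs1 : s < 1 := (div_lt_one hq).2 hpq
    have h1δ : 0 < 1 - δ := by linarith
    set κ : ℝ := (1 - δ) ^ (s - 1) with hκ
    have hκ1 : 1 < κ := by
      rw [hκ]
      exact Real.one_lt_rpow_of_pos_of_lt_one_of_neg h1δ (by linarith) (by linarith)
    have hκ0 : 0 < κ := by linarith
    set θ : ℝ := κ ^ (1 / 4 : ℝ) with hθ
    have hθ1 : 1 < θ := Real.one_lt_rpow hκ1 (by norm_num)
    have hθ0 : 0 < θ := by linarith
    have hθ4 : θ ^ 4 = κ := by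
      rw [hθ, ← Real.rpow_natCast, ← Real.rpow_mul hκ0.le]
      norm_num
    set ε : ℝ := Real.sqrt θ - 1 with hε
    have hsq1 : 1 < Real.sqrt θ := by
      rw [Real.lt_sqrt (by norm_num)]; simpa using hθ1
    have hε0 : 0 < ε := by linarith
    have hε2 : (1 + ε) ^ 2 = θ := by
      rw [hε]; ring_nf
      exact Real.sq_sqrt hθ0.le
    have hθi : 1 / θ < 1 := (div_lt_one hθ0).2 hθ1
    set z : ℝ := 1 - 1 / θ with hz
    have hz0 : 0 < z := by linarith
    set w : ℝ := z ^ (-(1 / p)) with hw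
    have hw0 : 0 < w := by positivity
    have hwp : w ^ (-p) = z := by
      rw [hw, ← Real.rpow_mul hz0.le]
      rw [show -(1 / p) * -p = 1 by field_simp, Real.rpow_one]
    refine ⟨ε, hε0, w, hw0, z, hz0, ?_⟩
    intro ν hN hI A B hA hB hdist hAδ hBδ hη
    obtain ⟨hA1, hB1, hAB, hmix⟩ := common ν hN w hw0 A B hA hB hdist hAδ hBδ
    have hpr : IsProbabilityMeasure ν := hN.1
    have hη' : 1 / θ ≤ (ν A).toReal + (ν B).toReal := by
      have h1 := ENNReal.toReal_mono (ENNReal.add_ne_top.2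
        ⟨measure_ne_top ν A, measure_ne_top ν B⟩) hη
      rw [ENNReal.toReal_add (measure_ne_top ν A) (measure_ne_top ν B),
        ENNReal.toReal_ofReal (by rw [hz]; have : 0 < 1 / θ := by positivity
                                  linarith)] at h1
      rw [hz] at h1
      linarith
    set mA : ℝ := (ν A).toReal with hmA
    set mB : ℝ := (ν B).toReal with hmB
    have hmA0 : 0 < mA := by linarith
    have hmB0 : 0 < mB := by linarith
    -- the value of the energy
    have hval : ∀ m : ℝ, 0 < m → 0 < (1 + ε) * ((1 + ε) / m) ^ s ∧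
        ((1 + ε) / m) ^ (1 / q) < Phi p ((1 + ε) * ((1 + ε) / m) ^ s) := by
      intro m hm
      have h0 : 0 < (1 + ε) * ((1 + ε) / m) ^ s := by positivity
      refine ⟨h0, ?_⟩
      unfold Phi
      rw [if_neg hpne, Real.mul_rpow (by positivity) (by positivity), ← Real.rpow_mul (by positivity),
        show s * (1 / p) = 1 / q by rw [hs]; field_simp]
      have h1 : 1 < (1 + ε) ^ (1 / p) := Real.one_lt_rpow (by linarith) (by positivity)
      have h2 : 0 < ((1 + ε) / m) ^ (1 / q) := by positivity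
      nlinarith
    obtain ⟨σ, hσ, hσA, hσe⟩ := pick hcls hq hM hMB hN hε0 hI hA hmA0
      (fun _ => (hval mA hmA0).1) (hval mA hmA0).2
    obtain ⟨τ, hτ, hτB, hτe⟩ := pick hcls hq hM hMB hN hε0 hI hB hmB0
      (fun _ => (hval mB hmB0).1) (hval mB hmB0).2
    have hc : ∀ x ∈ A, ∀ y ∈ B, kr p x y ≤ z := by
      intro x hx y hy
      unfold kr
      rw [if_neg hpne, ← hwp]
      exact Real.rpow_le_rpow_of_nonpos hw0 (hdist x hx y hy) (by linarith)
    -- lower bound for the inverse of the energies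
    set va : ℝ := (1 + ε) * ((1 + ε) / mA) ^ s with hva
    set vb : ℝ := (1 + ε) * ((1 + ε) / mB) ^ s with hvb
    have hva0 : 0 < va := (hval mA hmA0).1
    have hvb0 : 0 < vb := (hval mB hmB0).1
    have hinv : ∀ m : ℝ, 0 < m → m ≤ 1 - δ →
        m * κ / θ ≤ ((1 + ε) * ((1 + ε) / m) ^ s)⁻¹ := by
      intro m hm hm1
      have h1 : m * κ ≤ m ^ s := by
        have h2 : κ ≤ m ^ (s - 1) := by
          rw [hκ]
          exact Real.rpow_le_rpow_of_nonpos hm hm1 (by linarith)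
        calc m * κ ≤ m * m ^ (s - 1) := by gcongr
          _ = m ^ s := by
            rw [Real.rpow_sub_one hm.ne']; field_simp
      have h3 : (1 + ε) * ((1 + ε) / m) ^ s ≤ θ / m ^ s := by
        rw [Real.div_rpow (by positivity) hm.le]
        have h4 : (1 + ε) ^ s ≤ 1 + ε := by
          calc (1 + ε) ^ s ≤ (1 + ε) ^ (1 : ℝ) :=
                Real.rpow_le_rpow_of_exponent_le (by linarith) hs1.le
            _ = 1 + ε := Real.rpow_one _
        have h5 : (1 + ε) * (1 + ε) ^ s ≤ θ := by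
          rw [← hε2, sq]
          gcongr
        rw [← mul_div_assoc]
        gcongr
      have h6 : (θ / m ^ s)⁻¹ ≤ ((1 + ε) * ((1 + ε) / m) ^ s)⁻¹ := by
        apply inv_anti₀ (by positivity) h3
      refine le_trans ?_ h6
      rw [inv_div]
      gcongr
    set a : ℝ := va⁻¹ with ha
    set b : ℝ := vb⁻¹ with hb
    have ha0 : 0 < a := by positivity
    have hb0 : 0 < b := by positivity
    have hab : κ / θ ^ 2 ≤ a + b := by
      have h1 := hinv mA hmA0 (by linarith)
      have h2 := hinv mB hmB0 (by linarith)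
      calc κ / θ ^ 2 = 1 / θ * κ / θ := by field_simp
        _ ≤ (mA + mB) * κ / θ := by gcongr
        _ = mA * κ / θ + mB * κ / θ := by ring
        _ ≤ a + b := add_le_add h1 h2
    have hk := hmix σ hσ τ hτ hσA hτB z hc (b / (a + b))
      ⟨by positivity, by rw [div_le_one (by positivity)]; linarith⟩
    have ht : 1 - b / (a + b) = a / (a + b) := by field_simp; ring
    rw [ht] at hk
    unfold v0 at hk
    rw [if_neg hpne] at hk
    have hva' : va = a⁻¹ := by rw [ha, inv_inv]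
    have hvb' : vb = b⁻¹ := by rw [hb, inv_inv]
    rw [hva'] at hσe
    rw [hvb'] at hτe
    have e1 : (a / (a + b)) ^ 2 * En p σ σ < (a / (a + b)) ^ 2 * a⁻¹ := by
      apply mul_lt_mul_of_pos_left hσe (by positivity)
    have e2 : (b / (a + b)) ^ 2 * En p τ τ < (b / (a + b)) ^ 2 * b⁻¹ := by
      apply mul_lt_mul_of_pos_left hτe (by positivity)
    have e3 : (a / (a + b)) ^ 2 * a⁻¹ + (b / (a + b)) ^ 2 * b⁻¹ = 1 / (a + b) := by
      field_simp
    have e4 : 2 * (b / (a + b)) * (a / (a + b)) * z ≤ 1 * z := by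
      apply mul_le_mul_of_nonneg_right _ hz0.le
      rw [mul_assoc, div_mul_div_comm, ← mul_div_assoc, div_le_one (by positivity)]
      nlinarith [sq_nonneg a, sq_nonneg b]
    have e5 : 1 < 1 / (a + b) + z := by linarith
    have e6 : 1 / θ < 1 / (a + b) := by rw [hz] at e5; linarith
    have e7 : a + b < θ := by
      rwa [one_div_lt_one_div hθ0 (by positivity)] at e6
    have e8 : κ / θ ^ 2 = θ ^ 2 := by
      rw [← hθ4]; field_simp
    rw [e8] at hab
    nlinarith

end Pool.Agent.R179.RC
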