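import Pool.Agent.R284.RC.Stm

/-!
# RC-OPT (helper179), MP_ce24da_an
-/

set_option autoImplicit false
open MeasureTheory Set Filter Topology
open scoped ENNReal NNReal

namespace Pool.Agent.R179.RC

open Pool.Agent.R284.RC

theorem Iq_le_of_pot {n : ℕ} {q : ℝ} {μ : Measure (E n)} [IsProbabilityMeasure μ] {B : ℝ≥0∞}
    (h : ∀ x, Pot q μ x ≤ B) : Iq q μ ≤ B := by
  unfold Iq
  calc ∫⁻ x, Pot q μ x ∂μ ≤ ∫⁻ _, B ∂μ := lintegral_mono h
    _ = B := by simp

theorem pot_nr_le {n : ℕ} {q : ℝ} {μ : Measure (E n)} {B : ℝ≥0∞} (h : ∀ x, Pot q μ x ≤ B)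
    (D : Set (E n)) (x : E n) : Pot q (nr μ D) x ≤ (μ D)⁻¹ * B := by
  unfold Pot nr
  rw [lintegral_smul_measure, smul_eq_mul]
  gcongr
  exact (setLIntegral_le_lintegral _ _).trans (h x)

theorem aux_sq {m : ℝ} (h0 : 0 ≤ m) (h1 : m ≤ 1 / 2) : ((1 - m) ^ 2)⁻¹ ≤ 1 + 8 * m := by
  have h2 : 0 < (1 - m) ^ 2 := by
    have : 0 < 1 - m := by linarith
    positivity
  rw [inv_le_iff_one_le_mul₀ h2]
  nlinarith [mul_nonneg h0 (sub_nonneg.2 h1), mul_nonneg (mul_nonneg h0 h0) (sub_nonneg.2 h1),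
    mul_nonneg h0 h0, mul_nonneg (mul_nonneg h0 h0) h0]

theorem opt_proof (hcls : S_cls) : S_opt := by
  intro n p q hp hpq M hM hMB μ hμ hBP hLow hMI
  have hq : 0 < q := lt_of_le_of_lt hp hpq
  obtain ⟨B, hB⟩ := hBP
  have hBP : BP q μ := ⟨B, hB⟩
  have hcl := hcls n q μ inferInstance
  set I : ℝ := (Iq q μ).toReal with hI
  have hItop : Iq q μ < ⊤ := lt_of_le_of_lt (Iq_le_of_pot hB) ENNReal.coe_lt_top
  have hI0 : 0 ≤ I := ENNReal.toReal_nonneg
  set B' : ℝ := (B : ℝ) + 1 with hB'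
  have hB'0 : 0 < B' := by positivity
  -- consequence of the second kind of bound
  have key2 : ∀ D : Set (E n), MeasurableSet D → 0 < (μ D).toReal → ∀ S : ℝ, 1 ≤ S →
      LB p μ D S → Phi p S ≤ M * (B' / (μ D).toReal) ^ (1 / q) := by
    intro D hD hm S hS hLB
    have hD0 : μ D ≠ 0 := by
      intro h; rw [h] at hm; simp at hm
    obtain ⟨hpr, hbp, -⟩ := hcl.2.2.2.2 D hD hD0
    have hL : LowV p (nr μ D) S := by
      intro σ hσ
      have h1 := (hcl.2.2.2.1 D hD hD0 σ).1 hσ
      exact hLB σ h1.1 h1.2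
    have h2 := hMB (nr μ D) hpr (hbp hBP) S (fun _ => by linarith) hL
    refine h2.trans ?_
    have h3 : (Iq q (nr μ D)).toReal ≤ B' / (μ D).toReal := by
      have h4 : Iq q (nr μ D) ≤ (μ D)⁻¹ * (B : ℝ≥0∞) := Iq_le_of_pot (pot_nr_le hB D)
      have h5 : (μ D)⁻¹ * (B : ℝ≥0∞) ≠ ⊤ :=
        ENNReal.mul_ne_top (ENNReal.inv_ne_top.2 hD0) ENNReal.coe_ne_top
      have h6 := ENNReal.toReal_mono h5 h4
      rw [ENNReal.toReal_mul, ENNReal.toReal_inv, ENNReal.coe_toReal] at h6
      refine h6.trans ?_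
      rw [inv_mul_eq_div]
      gcongr
      linarith
    gcongr
  -- the first kind of bound
  have key1 : ∀ D : Set (E n), MeasurableSet D → (μ D).toReal ≤ 1 / 2 → ∀ δ : ℝ, 0 < δ →
      (∀ σ ∈ Cls μ, σ D = 0 → v0 p + δ ≤ En p σ σ) →
      Phi p (v0 p + δ) ≤ (1 - (μ D).toReal) ^ (-(2 / q)) := by
    intro D hD hm δ hδ hall
    have hm0 : 0 ≤ (μ D).toReal := ENNReal.toReal_nonneg
    have hc : (μ Dᶜ).toReal = 1 - (μ D).toReal := by
      rw [prob_compl_eq_one_sub hD, ENNReal.toReal_sub_of_le prob_le_one ENNReal.one_ne_top]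
      simp
    have h1m : 0 < 1 - (μ D).toReal := by linarith
    have hD0 : μ Dᶜ ≠ 0 := by
      intro h; rw [h] at hc; simp at hc; linarith
    obtain ⟨hpr, hbp, hiq⟩ := hcl.2.2.2.2 Dᶜ hD.compl hD0
    have hL : LowV p (nr μ Dᶜ) (v0 p + δ) := by
      intro σ hσ
      have h1 := (hcl.2.2.2.1 Dᶜ hD.compl hD0 σ).1 hσ
      rw [compl_compl] at h1
      exact hall σ h1.1 h1.2
    have hpos : p ≠ 0 → 0 < v0 p + δ := by
      intro h
      unfold v0
      rw [if_neg h]; linarith
    have h2 := hMB (nr μ Dᶜ) hpr (hbp hBP) _ hpos hL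
    refine h2.trans ?_
    have h3 : (Iq q (nr μ Dᶜ)).toReal ≤ (1 - (μ D).toReal) ^ (-2 : ℝ) * I := by
      have h5 : (μ Dᶜ)⁻¹ * (μ Dᶜ)⁻¹ * Iq q μ ≠ ⊤ :=
        ENNReal.mul_ne_top (ENNReal.mul_ne_top (ENNReal.inv_ne_top.2 hD0)
          (ENNReal.inv_ne_top.2 hD0)) hItop.ne
      have h6 := ENNReal.toReal_mono h5 hiq
      rw [ENNReal.toReal_mul, ENNReal.toReal_mul, ENNReal.toReal_inv, hc] at h6
      refine h6.trans (le_of_eq ?_)
      rw [Real.rpow_neg h1m.le, ← hI]
      congr 1
      rw [← mul_inv]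
      congr 1
      rw [← sq]
      exact_mod_cast (Real.rpow_natCast (1 - (μ D).toReal) 2).symm
    calc M * (Iq q (nr μ Dᶜ)).toReal ^ (1 / q)
        ≤ M * ((1 - (μ D).toReal) ^ (-2 : ℝ) * I) ^ (1 / q) := by
          gcongr
      _ = (1 - (μ D).toReal) ^ (-(2 / q)) * (M * I ^ (1 / q)) := by
          rw [Real.mul_rpow (by positivity) hI0, ← Real.rpow_mul h1m.le]
          rw [show (-2 : ℝ) * (1 / q) = -(2 / q) by ring]
          ring
      _ ≤ (1 - (μ D).toReal) ^ (-(2 / q)) * 1 := by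
          gcongr
      _ = _ := mul_one _
  rcases eq_or_lt_of_le hp with hp0 | hp0
  · -- p = 0
    subst hp0
    refine ⟨max 8 (4 / q), 2 * M ^ q * B' / q ^ 2, 2, le_max_of_le_left (by norm_num),
      by positivity, by norm_num, ?_, ?_⟩
    · intro D hD hm δ hδ
      have hm0 : 0 ≤ (μ D).toReal := ENNReal.toReal_nonneg
      have hC : 4 / q ≤ max 8 (4 / q) := le_max_right _ _
      have hδ0 : 0 < δ := lt_of_le_of_lt (by positivity) hδ
      by_contra hcon
      push_neg at hcon
      have h1 := key1 D hD hm δ hδ0 (fun σ hσ hσD => (hcon σ hσ hσD).le)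
      unfold Phi v0 at h1
      simp only [if_true, zero_add] at h1
      have h1m : 0 < 1 - (μ D).toReal := by linarith
      have h2 : δ ≤ -(2 / q) * Real.log (1 - (μ D).toReal) := by
        have h3 := Real.log_le_log (Real.exp_pos _) h1
        rw [Real.log_exp, Real.log_rpow h1m] at h3
        exact h3
      have h4 : -Real.log (1 - (μ D).toReal) ≤ 2 * (μ D).toReal := by
        have h5 := Real.one_sub_inv_le_log_of_pos h1m
        have h6 : (1 - (μ D).toReal)⁻¹ - 1 ≤ 2 * (μ D).toReal := by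
          rw [sub_le_iff_le_add, inv_le_iff_one_le_mul₀ h1m]
          nlinarith
        linarith
      have h7 : δ ≤ 4 / q * (μ D).toReal := by
        calc δ ≤ 2 / q * (-Real.log (1 - (μ D).toReal)) := by linarith
          _ ≤ 2 / q * (2 * (μ D).toReal) := by gcongr
          _ = _ := by ring
      have h8 : 4 / q * (μ D).toReal ≤ max 8 (4 / q) * (μ D).toReal := by gcongr
      linarith
    · intro D hD S hS hLB
      rcases eq_or_lt_of_le (ENNReal.toReal_nonneg (a := μ D)) with hm | hm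
      · rw [← hm]
        positivity
      · have h1 := key2 D hD hm S hS hLB
        unfold Phi at h1
        simp only [if_true] at h1
        have hm' := hm
        set m : ℝ := (μ D).toReal with hmdef
        have h2 : Real.exp (q * S) ≤ M ^ q * (B' / m) := by
          have h3 : (Real.exp S) ^ q ≤ (M * (B' / m) ^ (1 / q)) ^ q :=
            Real.rpow_le_rpow (Real.exp_pos _).le h1 hq.le
          rw [Real.mul_rpow hM.le (by positivity), ← Real.rpow_mul (by positivity),
            one_div_mul_cancel hq.ne', Real.rpow_one, ← Real.exp_mul] at h3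
          rwa [mul_comm S q] at h3
        have h4 : (q * S) ^ 2 / 2 ≤ Real.exp (q * S) := by
          have := Real.quadratic_le_exp_of_nonneg (x := q * S) (by positivity)
          nlinarith [mul_pos hq (by linarith : (0:ℝ) < S)]
        have h5 : (q * S) ^ 2 / 2 ≤ M ^ q * (B' / m) := h4.trans h2
        have h6 : m * ((q * S) ^ 2 / 2) ≤ M ^ q * B' := by
          calc m * ((q * S) ^ 2 / 2) ≤ m * (M ^ q * (B' / m)) := by gcongr
            _ = M ^ q * B' := by field_simp
        have hS0 : 0 < S := by linarith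
        have h7 : S ^ (-2 : ℝ) = (S ^ 2)⁻¹ := by
          rw [Real.rpow_neg hS0.le]
          congr 1
          exact_mod_cast Real.rpow_natCast S 2
        rw [h7]
        have h8 : 2 * M ^ q * B' / q ^ 2 * (S ^ 2)⁻¹ = (M ^ q * B') / ((q * S) ^ 2 / 2) := by
          field_simp
        rw [h8, le_div_iff₀ (by positivity)]
        exact h6
  · -- p > 0
    have hpne : p ≠ 0 := hp0.ne'
    refine ⟨max 8 (4 / q), M ^ q * B', q / p, le_max_of_le_left (by norm_num),
      by positivity, (one_lt_div hp0).2 hpq, ?_, ?_⟩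
    · intro D hD hm δ hδ
      have hm0 : 0 ≤ (μ D).toReal := ENNReal.toReal_nonneg
      have hC : (8 : ℝ) ≤ max 8 (4 / q) := le_max_left _ _
      have hδ0 : 0 < δ := lt_of_le_of_lt (by positivity) hδ
      by_contra hcon
      push_neg at hcon
      have h1 := key1 D hD hm δ hδ0 (fun σ hσ hσD => (hcon σ hσ hσD).le)
      unfold Phi v0 at h1
      simp only [if_neg hpne] at h1
      have h1m : 0 < 1 - (μ D).toReal := by linarith
      have h2 : 1 + δ ≤ (1 - (μ D).toReal) ^ (-(2 / q) * p) := by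
        have h3 : ((1 + δ) ^ (1 / p)) ^ p ≤ ((1 - (μ D).toReal) ^ (-(2 / q))) ^ p :=
          Real.rpow_le_rpow (by positivity) h1 hp0.le
        rwa [← Real.rpow_mul (by positivity), one_div_mul_cancel hpne, Real.rpow_one,
          ← Real.rpow_mul h1m.le] at h3
      have h4 : (1 - (μ D).toReal) ^ (-(2 / q) * p) ≤ (1 - (μ D).toReal) ^ (-2 : ℝ) := by
        apply Real.rpow_le_rpow_of_exponent_ge h1m (by linarith)
        have : 2 / q * p ≤ 2 := by
          rw [div_mul_eq_mul_div, div_le_iff₀ hq]; nlinarith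
        linarith
      have h5 : (1 - (μ D).toReal) ^ (-2 : ℝ) = ((1 - (μ D).toReal) ^ 2)⁻¹ := by
        rw [Real.rpow_neg h1m.le]
        congr 1
        exact_mod_cast Real.rpow_natCast (1 - (μ D).toReal) 2
      rw [h5] at h4
      have h6 := aux_sq hm0 hm
      have h8 : 8 * (μ D).toReal ≤ max 8 (4 / q) * (μ D).toReal := by gcongr
      linarith
    · intro D hD S hS hLB
      have hS0 : 0 < S := by linarith
      rcases eq_or_lt_of_le (ENNReal.toReal_nonneg (a := μ D)) with hm | hm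
      · rw [← hm]
        positivity
      · have h1 := key2 D hD hm S hS hLB
        unfold Phi at h1
        simp only [if_neg hpne] at h1
        set m : ℝ := (μ D).toReal with hmdef
        have h2 : S ^ (q / p) ≤ M ^ q * (B' / m) := by
          have h3 : (S ^ (1 / p)) ^ q ≤ (M * (B' / m) ^ (1 / q)) ^ q :=
            Real.rpow_le_rpow (by positivity) h1 hq.le
          have hBm : 0 ≤ B' / m := by positivity
          rw [Real.mul_rpow hM.le (by positivity), ← Real.rpow_mul hS0.le,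
            ← Real.rpow_mul hBm, one_div_mul_cancel hq.ne', Real.rpow_one] at h3
          rwa [show 1 / p * q = q / p by ring] at h3
        rw [Real.rpow_neg hS0.le, ← div_eq_mul_inv, le_div_iff₀ (by positivity)]
        calc m * S ^ (q / p) ≤ m * (M ^ q * (B' / m)) := by gcongr
          _ = M ^ q * B' := by field_simp

end Pool.Agent.R179.RC
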